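import Pool.Agent.H500.ME.Stm
import Pool.Graph.R_pool_sql_team_seeded_47a924f7.T6.H23.HK.Edge

set_option autoImplicit false
set_option linter.unusedSectionVars false

/-!
# Project ME (helper500), part B2 (by helper720): complex Hecke characters
-/

namespace Pool.Agent.H720.ME.CXH

open NumberField IsDedekindDomain Filter Topology
open Pool.Agent.H500.HC (QBar)
open Pool.Agent.H500.ME (typU IsAlg at1 HasWt S_CXH)
open Pool.Agent.Q92.AR (Dv Ray prin prin_apply Cong Pos)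
open Pool.Agent.T6.H23.HK (om IsHecke)

variable {L : Type} [Field L] [NumberField L]

/-! ## Divisors of ideals -/

/-- the divisor of an ideal -/
noncomputable def dv (𝔞 : Ideal (𝓞 L)) : Dv L :=
  Finsupp.ofSupportFinite
    (fun v => FractionalIdeal.count L v (𝔞 : FractionalIdeal (nonZeroDivisors (𝓞 L)) L))
    (by
      have h := FractionalIdeal.finite_factors (K := L)
        (𝔞 : FractionalIdeal (nonZeroDivisors (𝓞 L)) L)
      rw [Filter.eventually_cofinite] at h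
      exact h)

theorem dv_apply (𝔞 : Ideal (𝓞 L)) (v : HeightOneSpectrum (𝓞 L)) :
    dv 𝔞 v = FractionalIdeal.count L v (𝔞 : FractionalIdeal (nonZeroDivisors (𝓞 L)) L) := rfl

theorem dv_mul {𝔞 𝔟 : Ideal (𝓞 L)} (ha : 𝔞 ≠ ⊥) (hb : 𝔟 ≠ ⊥) : dv (𝔞 * 𝔟) = dv 𝔞 + dv 𝔟 := by
  ext v
  rw [Finsupp.add_apply, dv_apply, dv_apply, dv_apply, FractionalIdeal.coeIdeal_mul,
    FractionalIdeal.count_mul L v (FractionalIdeal.coeIdeal_ne_zero.2 ha)
      (FractionalIdeal.coeIdeal_ne_zero.2 hb)]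

theorem dv_top : dv (⊤ : Ideal (𝓞 L)) = 0 := by
  ext v
  rw [dv_apply, FractionalIdeal.coeIdeal_top, FractionalIdeal.count_one, Finsupp.zero_apply]

theorem dv_prime (w : HeightOneSpectrum (𝓞 L)) : dv w.asIdeal = Finsupp.single w 1 := by
  classical
  ext v
  rw [dv_apply, FractionalIdeal.count_maximal, Finsupp.single_apply]

theorem dv_span {a : 𝓞 L} {x : Lˣ} (hx : (x : L) = (a : L)) : prin x = dv (Ideal.span {a}) := by
  ext v
  rw [prin_apply, dv_apply, FractionalIdeal.coeIdeal_span_singleton, hx]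

/-! ## Signs -/

section sign

open Pool.Agent.Y773 (TPos)
open Pool.Agent.Y773.G (rl)
open Pool.Agent.Y772.G (exists_neg tpos_iff rl_ne rl_pos_cpx isReal_or rl_real abs_rl)

/-- a character of the elements `≡ 1`, which is trivial on the totally positive ones -/
theorem sig {𝔣 : Ideal (𝓞 L)} (hf : 𝔣 ≠ ⊥) (f : 𝓞 L → ℂ)
    (hm : ∀ x y : 𝓞 L, x ≠ 0 → y ≠ 0 → f (x * y) = f x * f y) (h1 : f 1 = 1)
    (hψ : ∀ x : 𝓞 L, x ≠ 0 → x - 1 ∈ 𝔣 → TPos L x → f x = 1) :
    ∃ e : InfinitePlace L → ℕ, (∀ w : InfinitePlace L, w.IsComplex → e w = 0) ∧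
      ∀ x : 𝓞 L, x ≠ 0 → x - 1 ∈ 𝔣 →
        f x = ∏ w : InfinitePlace L, (if rl w (x : L) < 0 then (-1 : ℂ) ^ e w else 1) := by
  classical
  choose z hz0 hz1 hz2 hz3 using fun w : InfinitePlace L => exists_neg hf w
  have hmul : ∀ x y : 𝓞 L, x - 1 ∈ 𝔣 → y - 1 ∈ 𝔣 → x * y - 1 ∈ 𝔣 := by
    intro x y hx hy
    have h1 := 𝔣.add_mem (𝔣.mul_mem_left y hx) hy
    have h2 : y * (x - 1) + (y - 1) = x * y - 1 := by ring
    rwa [h2] at h1
  have hprod : ∀ (s : Finset (InfinitePlace L)), (∏ w ∈ s, z w) - 1 ∈ 𝔣 := by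
    intro s
    induction s using Finset.induction_on with
    | empty => simp
    | insert a s ha ih => rw [Finset.prod_insert ha]; exact hmul _ _ (hz1 a) ih
  have hp0 : ∀ (s : Finset (InfinitePlace L)), (∏ w ∈ s, z w) ≠ 0 := fun s =>
    Finset.prod_ne_zero_iff.2 fun w _ => hz0 w
  have hψp : ∀ (s : Finset (InfinitePlace L)), f (∏ w ∈ s, z w) = ∏ w ∈ s, f (z w) := by
    intro s
    induction s using Finset.induction_on with
    | empty => rw [Finset.prod_empty, Finset.prod_empty, h1]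
    | insert a s ha ih =>
      rw [Finset.prod_insert ha, hm _ _ (hz0 a) (hp0 s), ih, Finset.prod_insert ha]
  have hsq : ∀ x : 𝓞 L, x ≠ 0 → x - 1 ∈ 𝔣 → f x ^ 2 = 1 := by
    intro x hx0 hx
    rw [pow_two, ← hm _ _ hx0 hx0]
    refine hψ _ (mul_ne_zero hx0 hx0) (hmul _ _ hx hx)
      ((tpos_iff (mul_ne_zero hx0 hx0)).2 fun w => ?_)
    push_cast
    rw [map_mul]
    have : rl w (x : L) ≠ 0 := rl_ne (RingOfIntegers.coe_ne_zero_iff.2 hx0)
    exact mul_self_pos.2 this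
  have hcpx : ∀ w : InfinitePlace L, w.IsComplex → f (z w) = 1 := by
    intro w hw
    refine hψ _ (hz0 w) (hz1 w) ((tpos_iff (hz0 w)).2 fun v => hz3 w v fun hv h => ?_)
    rw [h] at hv
    exact InfinitePlace.not_isReal_iff_isComplex.2 hw hv
  refine ⟨fun w => if f (z w) = 1 then 0 else 1, fun w hw => ?_, fun x hx0 hx => ?_⟩
  · simp only
    rw [if_pos (hcpx w hw)]
  · have hzv : ∀ w, f (z w) = (-1 : ℂ) ^ (if f (z w) = 1 then 0 else 1) := by
      intro w
      split_ifs with h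
      · rw [h, pow_zero]
      · rw [pow_one]
        have h1 := hsq _ (hz0 w) (hz1 w)
        rw [pow_two] at h1
        exact (mul_self_eq_one_iff.1 h1).resolve_left h
    set S : Finset (InfinitePlace L) := Finset.univ.filter fun w => rl w (x : L) < 0 with hS
    have hx0' : (x : L) ≠ 0 := RingOfIntegers.coe_ne_zero_iff.2 hx0
    have hSr : ∀ w ∈ S, w.IsReal := by
      intro w hw
      rw [hS, Finset.mem_filter] at hw
      rcases isReal_or w with h | h
      · exact h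
      · exact absurd hw.2 (not_lt.2 (rl_pos_cpx h hx0').le)
    have htp : TPos L (x * ∏ w ∈ S, z w) := by
      rw [tpos_iff (mul_ne_zero hx0 (hp0 S))]
      intro w
      push_cast
      rw [map_mul, map_prod]
      by_cases hw : w ∈ S
      · rw [← Finset.mul_prod_erase _ _ hw]
        have h1 : rl w (x : L) < 0 := by
          rw [hS, Finset.mem_filter] at hw
          exact hw.2
        have h2 : 0 < ∏ v ∈ S.erase w, rl w ((algebraMap (𝓞 L) L) (z v)) :=
          Finset.prod_pos fun v hv => hz3 v w fun _ => (Finset.ne_of_mem_erase hv).symm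
        have h3 := hz2 w (hSr w hw)
        have h4 : 0 < rl w (x : L) * rl w (z w : L) := mul_pos_of_neg_of_neg h1 h3
        calc 0 < rl w (x : L) * rl w (z w : L) *
              ∏ v ∈ S.erase w, rl w ((algebraMap (𝓞 L) L) (z v)) := mul_pos h4 h2
          _ = _ := by ring
      · have h1 : 0 < rl w (x : L) := by
          rw [hS, Finset.mem_filter] at hw
          have h2 : ¬ rl w (x : L) < 0 := fun h => hw ⟨Finset.mem_univ _, h⟩
          exact lt_of_le_of_ne (not_lt.1 h2) (rl_ne hx0').symm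
        refine mul_pos h1 (Finset.prod_pos fun v hv => hz3 v w fun _ => ?_)
        rintro rfl
        exact hw hv
    have h1 := hψ _ (mul_ne_zero hx0 (hp0 S)) (hmul _ _ hx (hprod S)) htp
    rw [hm _ _ hx0 (hp0 S), hψp] at h1
    have h2 : (∏ w ∈ S, f (z w)) ^ 2 = 1 := by
      rw [← hψp]
      exact hsq _ (hp0 S) (hprod S)
    have h3 : f x = ∏ w ∈ S, f (z w) := by
      have h4 : f x * (∏ w ∈ S, f (z w)) ^ 2 = ∏ w ∈ S, f (z w) := by
        rw [pow_two, ← mul_assoc, h1, one_mul]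
      rwa [h2, mul_one] at h4
    rw [h3, hS, Finset.prod_filter]
    refine Finset.prod_congr rfl fun w _ => ?_
    by_cases h4 : rl w (x : L) < 0
    · rw [if_pos h4, if_pos h4]
      exact hzv w
    · rw [if_neg h4, if_neg h4]

/-- sign characters are infinity types -/
theorem sig_om (e : InfinitePlace L → ℕ) (he : ∀ w : InfinitePlace L, w.IsComplex → e w = 0)
    {x : L} (hx : x ≠ 0) :
    (∏ w : InfinitePlace L, (if rl w x < 0 then (-1 : ℂ) ^ e w else 1)) =
      om (fun w => (e w : ℤ)) (fun _ => 0) x := by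
  unfold om
  refine Finset.prod_congr rfl fun w _ => ?_
  rw [Complex.ofReal_zero, zero_mul, Complex.cpow_zero, mul_one, zpow_natCast]
  rcases isReal_or w with hr | hc
  · have h1 : w.embedding x = ((rl w x : ℝ) : ℂ) := by
      rw [rl_real hr, InfinitePlace.embedding_of_isReal_apply]
    have h2 : (w x : ℝ) = |rl w x| := (abs_rl w x).symm
    have h0 : rl w x ≠ 0 := rl_ne hx
    rw [h1, h2]
    by_cases h3 : rl w x < 0
    · rw [if_pos h3, abs_of_neg h3]
      congr 1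
      have h4 : ((rl w x : ℝ) : ℂ) ≠ 0 := Complex.ofReal_ne_zero.2 h0
      rw [Complex.ofReal_neg, div_neg, div_self h4]
    · have h4 : 0 < rl w x := lt_of_le_of_ne (not_lt.1 h3) h0.symm
      have h5 : ((rl w x : ℝ) : ℂ) ≠ 0 := Complex.ofReal_ne_zero.2 h0
      rw [if_neg h3, abs_of_pos h4, div_self h5, one_pow]
  · rw [he w hc, pow_zero, pow_zero, ite_self]

end sign

/-! ## The infinity type -/

/-- the direction -/
noncomputable def dir (z : ℂ) : ℂ := z / (‖z‖ : ℂ)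

theorem dir_conj {z : ℂ} (hz : z ≠ 0) : dir ((starRingEnd ℂ) z) = (dir z)⁻¹ := by
  unfold dir
  have h1 : (‖z‖ : ℂ) ≠ 0 := Complex.ofReal_ne_zero.2 (norm_ne_zero_iff.2 hz)
  have h2 : z * (starRingEnd ℂ) z = (‖z‖ : ℂ) * (‖z‖ : ℂ) := by
    rw [Complex.mul_conj, Complex.normSq_eq_norm_sq]
    push_cast
    ring
  rw [RCLike.norm_conj, inv_div, div_eq_div_iff h1 hz, mul_comm ((starRingEnd ℂ) z) z, h2]

open Classical in
/-- the exponents at the infinite places -/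
noncomputable def kk (T : (L →+* ℂ) → ℤ) (w : InfinitePlace L) : ℤ :=
  ∑ e ∈ Finset.univ.filter (fun e : L →+* ℂ => InfinitePlace.mk e = w),
    if e = w.embedding then T e else -T e

theorem prod_dir (T : (L →+* ℂ) → ℤ) {x : L} (hx : x ≠ 0) :
    ∏ e : L →+* ℂ, dir (e x) ^ T e = om (kk T) (fun _ => 0) x := by
  classical
  rw [← Finset.prod_fiberwise (s := Finset.univ) (g := fun e : L →+* ℂ => InfinitePlace.mk e)]
  unfold om
  refine Finset.prod_congr rfl fun w _ => ?_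
  rw [Complex.ofReal_zero, zero_mul, Complex.cpow_zero, mul_one]
  have h0 : w.embedding x ≠ 0 := (map_ne_zero w.embedding).2 hx
  have h1 : w.embedding x / ((w x : ℝ) : ℂ) = dir (w.embedding x) := by
    unfold dir
    rw [InfinitePlace.norm_embedding_eq]
  have hd0 : dir (w.embedding x) ≠ 0 := by
    unfold dir
    exact div_ne_zero h0 (Complex.ofReal_ne_zero.2 (norm_ne_zero_iff.2 h0))
  rw [h1]
  unfold kk
  have h3 : ∀ (s : Finset (L →+* ℂ)) (g : (L →+* ℂ) → ℤ),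
      dir (w.embedding x) ^ (∑ e ∈ s, g e) = ∏ e ∈ s, dir (w.embedding x) ^ g e := by
    intro s g
    induction s using Finset.induction_on with
    | empty => rw [Finset.sum_empty, Finset.prod_empty, zpow_zero]
    | insert a s ha ih => rw [Finset.sum_insert ha, Finset.prod_insert ha, zpow_add₀ hd0, ih]
  rw [h3]
  refine Finset.prod_congr rfl fun e he => ?_
  rw [Finset.mem_filter] at he
  by_cases h4 : e = w.embedding
  · rw [if_pos h4, h4]
  · rw [if_neg h4]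
    have h5 : InfinitePlace.mk w.embedding = InfinitePlace.mk e := by
      rw [InfinitePlace.mk_embedding, he.2]
    rw [InfinitePlace.mk_eq_iff] at h5
    rcases h5 with h5 | h5
    · exact absurd h5.symm h4
    · have h6 : e x = (starRingEnd ℂ) (w.embedding x) := by
        rw [← h5]
        rfl
      rw [h6, dir_conj h0, inv_zpow, zpow_neg]

/-! ## The character -/

section char
variable (φ : Dv L →+ Additive QBarˣ) (τ : QBar →+* ℂ)

/-- the values in `ℂ` -/
noncomputable def th (D : Dv L) : ℂ := τ ((φ D).toMul : QBar)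

theorem th_add (D D' : Dv L) : th φ τ (D + D') = th φ τ D * th φ τ D' := by
  unfold th
  rw [map_add, toMul_add, Units.val_mul, map_mul]

theorem th_zero : th φ τ 0 = 1 := by
  unfold th
  rw [map_zero, toMul_zero, Units.val_one, map_one]

theorem th_ne (D : Dv L) : th φ τ D ≠ 0 := by
  unfold th
  exact (map_ne_zero τ).2 (Units.ne_zero _)

open Classical in
/-- the normalized character of the ideals prime to `𝔪` -/
noncomputable def psi (m : ℤ) {𝔪 : Ideal (𝓞 L)} (hm : 𝔪 ≠ ⊤) : Ideal (𝓞 L) →*₀ ℂ where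
  toFun 𝔞 := if IsCoprime 𝔞 𝔪 then
    th φ τ (dv 𝔞) / (((Ideal.absNorm 𝔞 : ℝ) ^ ((m : ℝ) / 2) : ℝ) : ℂ) else 0
  map_zero' := by
    rw [if_neg]
    exact Pool.Agent.T6.H23.HK.not_coprime_bot hm
  map_one' := by
    rw [if_pos isCoprime_one_left, Ideal.one_eq_top, dv_top, th_zero, Ideal.absNorm_top,
      Nat.cast_one, Real.one_rpow, Complex.ofReal_one, div_one]
  map_mul' 𝔞 𝔟 := by
    by_cases h1 : IsCoprime 𝔞 𝔪
    · by_cases h2 : IsCoprime 𝔟 𝔪
      · have ha : 𝔞 ≠ ⊥ := by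
          rintro rfl
          exact Pool.Agent.T6.H23.HK.not_coprime_bot hm h1
        have hb : 𝔟 ≠ ⊥ := by
          rintro rfl
          exact Pool.Agent.T6.H23.HK.not_coprime_bot hm h2
        rw [if_pos h1, if_pos h2, if_pos (IsCoprime.mul_left h1 h2), dv_mul ha hb, th_add,
          map_mul, Nat.cast_mul, Real.mul_rpow (Nat.cast_nonneg _) (Nat.cast_nonneg _),
          Complex.ofReal_mul, mul_div_mul_comm]
      · rw [if_neg h2, mul_zero, if_neg (fun h => h2 (IsCoprime.of_mul_left_right h))]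
    · rw [if_neg h1, zero_mul, if_neg (fun h => h1 (IsCoprime.of_mul_left_left h))]

variable {φ τ}

theorem psi_pos {m : ℤ} {𝔪 : Ideal (𝓞 L)} (hm : 𝔪 ≠ ⊤) {𝔞 : Ideal (𝓞 L)} (h : IsCoprime 𝔞 𝔪) :
    psi φ τ m hm 𝔞 = th φ τ (dv 𝔞) / (((Ideal.absNorm 𝔞 : ℝ) ^ ((m : ℝ) / 2) : ℝ) : ℂ) :=
  if_pos h

theorem psi_neg {m : ℤ} {𝔪 : Ideal (𝓞 L)} (hm : 𝔪 ≠ ⊤) {𝔞 : Ideal (𝓞 L)}
    (h : ¬ IsCoprime 𝔞 𝔪) : psi φ τ m hm 𝔞 = 0 :=
  if_neg h

theorem nrm_pos {𝔞 : Ideal (𝓞 L)} (ha : 𝔞 ≠ ⊥) : (0 : ℝ) < (Ideal.absNorm 𝔞 : ℝ) := by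
  have h1 : Ideal.absNorm 𝔞 ≠ 0 := fun h => ha (Ideal.absNorm_eq_zero_iff.1 h)
  exact_mod_cast Nat.pos_of_ne_zero h1

theorem psi_ne {m : ℤ} {𝔪 : Ideal (𝓞 L)} (hm : 𝔪 ≠ ⊤) {𝔞 : Ideal (𝓞 L)} (ha : 𝔞 ≠ ⊥) :
    psi φ τ m hm 𝔞 ≠ 0 ↔ IsCoprime 𝔞 𝔪 := by
  constructor
  · intro h
    by_contra h1
    exact h (psi_neg hm h1)
  · intro h
    rw [psi_pos hm h]
    exact div_ne_zero (th_ne φ τ _)
      (Complex.ofReal_ne_zero.2 (Real.rpow_pos_of_pos (nrm_pos ha) _).ne')

/-- the absolute values -/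
theorem psi_norm {m : ℤ} {𝔪 : Ideal (𝓞 L)} (hm : 𝔪 ≠ ⊤)
    (hw : ∀ w : HeightOneSpectrum (𝓞 L), IsCoprime w.asIdeal 𝔪 →
      ‖τ (at1 φ w)‖ ^ 2 = (Ideal.absNorm w.asIdeal : ℝ) ^ m) (𝔞 : Ideal (𝓞 L)) :
    IsCoprime 𝔞 𝔪 → ‖psi φ τ m hm 𝔞‖ = 1 := by
  induction 𝔞 using UniqueFactorizationMonoid.induction_on_prime with
  | h₁ => intro h; exact absurd h (Pool.Agent.T6.H23.HK.not_coprime_bot hm)
  | h₂ x hx =>
    intro _
    rw [Ideal.isUnit_iff] at hx
    rw [hx, ← Ideal.one_eq_top, map_one, norm_one]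
  | h₃ a p ha hp ih =>
    intro h
    rw [map_mul, norm_mul, ih (IsCoprime.of_mul_left_right h), mul_one]
    have h1 : IsCoprime p 𝔪 := IsCoprime.of_mul_left_left h
    have hp0 : p ≠ ⊥ := hp.ne_zero
    obtain ⟨w, rfl⟩ : ∃ w : HeightOneSpectrum (𝓞 L), w.asIdeal = p :=
      ⟨⟨p, Ideal.isPrime_of_prime hp, hp0⟩, rfl⟩
    have hN := nrm_pos hp0
    rw [psi_pos hm h1, dv_prime, norm_div, Complex.norm_real,
      Real.norm_of_nonneg (Real.rpow_pos_of_pos hN _).le]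
    have h3 : ‖th φ τ (Finsupp.single w 1)‖ = (Ideal.absNorm w.asIdeal : ℝ) ^ ((m : ℝ) / 2) := by
      have h4 := hw w h1
      have h5 : ((Ideal.absNorm w.asIdeal : ℝ) ^ ((m : ℝ) / 2)) ^ 2 =
          (Ideal.absNorm w.asIdeal : ℝ) ^ m := by
        rw [← Real.rpow_natCast, ← Real.rpow_mul hN.le, ← Real.rpow_intCast]
        congr 1
        push_cast
        ring
      rw [← h5] at h4
      exact (pow_left_inj₀ (norm_nonneg _) (Real.rpow_pos_of_pos hN _).le two_ne_zero).1 h4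
    rw [h3, div_self (Real.rpow_pos_of_pos hN _).ne']

end char

/-- the bijection of the embeddings -/
theorem emb_bij (τ : QBar →+* ℂ) : Function.Bijective (fun σ : L →+* QBar => τ.comp σ) := by
  rw [Fintype.bijective_iff_injective_and_card]
  refine ⟨fun σ σ' h => ?_, ?_⟩
  · ext x
    exact τ.injective (RingHom.congr_fun h x)
  · rw [NumberField.Embeddings.card, NumberField.Embeddings.card]

/-- the value of the type in `ℂ` -/
theorem typ_val (τ : QBar →+* ℂ) (t : (L →+* QBar) → ℤ) (x : Lˣ) :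
    τ (typU t x : QBar) = ∏ σ : L →+* QBar, (τ (σ (x : L))) ^ t σ := by
  unfold typU
  rw [Units.coe_prod, map_prod]
  refine Finset.prod_congr rfl fun σ _ => ?_
  rw [Units.val_zpow_eq_zpow_val, map_zpow₀]
  rfl

/-- the direction of the value of the type -/
theorem typ_dir (τ : QBar →+* ℂ) (t : (L →+* QBar) → ℤ) : ∃ k : InfinitePlace L → ℤ,
    ∀ x : Lˣ, dir (τ (typU t x : QBar)) = om k (fun _ => 0) (x : L) := by
  classical
  obtain ⟨g, hg⟩ := (emb_bij (L := L) τ).surjective.hasRightInverse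
  have hg2 : ∀ σ : L →+* QBar, g (τ.comp σ) = σ := fun σ => (emb_bij τ).injective (hg _)
  refine ⟨kk (fun e => t (g e)), fun x => ?_⟩
  rw [← prod_dir (fun e => t (g e)) x.ne_zero, typ_val]
  have h1 : ∀ z w : ℂ, dir (z * w) = dir z * dir w := by
    intro z w
    unfold dir
    rw [norm_mul, Complex.ofReal_mul, mul_div_mul_comm]
  have h2 : ∀ (s : Finset (L →+* QBar)) (f : (L →+* QBar) → ℂ),
      dir (∏ σ ∈ s, f σ) = ∏ σ ∈ s, dir (f σ) := by
    intro s f
    induction s using Finset.induction_on with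
    | empty =>
      rw [Finset.prod_empty, Finset.prod_empty]
      unfold dir
      rw [norm_one, Complex.ofReal_one, div_one]
    | insert a s ha ih => rw [Finset.prod_insert ha, Finset.prod_insert ha, h1, ih]
  have h3 : ∀ (z : ℂ) (n : ℤ), dir (z ^ n) = dir z ^ n := by
    intro z n
    unfold dir
    rw [norm_zpow, Complex.ofReal_zpow, div_zpow]
  rw [h2]
  refine Fintype.prod_bijective (fun σ : L →+* QBar => τ.comp σ) (emb_bij τ) _ _ fun σ => ?_
  simp only [h3, hg2]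
  rfl

theorem main : S_CXH := by
  classical
  intro L _ _ M t φ m τ hM hal hwt
  -- the modulus
  have hfin := hwt τ
  rw [Filter.eventually_cofinite] at hfin
  obtain ⟨B, hB⟩ : ∃ B : ℕ, B = ∏ w ∈ hfin.toFinset, Ideal.absNorm w.asIdeal := ⟨_, rfl⟩
  have hB0 : B ≠ 0 := by
    rw [hB]
    refine Finset.prod_ne_zero_iff.2 fun w _ h => w.ne_bot (Ideal.absNorm_eq_zero_iff.1 h)
  obtain ⟨𝔪, h𝔪⟩ : ∃ 𝔪 : Ideal (𝓞 L), 𝔪 = Ideal.span {((2 * M * B : ℕ) : 𝓞 L)} := ⟨_, rfl⟩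
  have h𝔪0 : 𝔪 ≠ ⊥ := by
    rw [h𝔪, Ne, Ideal.span_singleton_eq_bot]
    exact Nat.cast_ne_zero.2 (mul_ne_zero (mul_ne_zero two_ne_zero hM.ne') hB0)
  have h𝔪t : 𝔪 ≠ ⊤ := by
    intro h
    apply Pool.Agent.T6.H23.HK.two_ne_top (K := L)
    rw [eq_top_iff, ← h, h𝔪, Ideal.span_singleton_le_span_singleton]
    refine ⟨((M * B : ℕ) : 𝓞 L), ?_⟩
    push_cast
    ring
  have hwd : ∀ w : HeightOneSpectrum (𝓞 L), IsCoprime w.asIdeal 𝔪 →
      ‖τ (at1 φ w)‖ ^ 2 = (Ideal.absNorm w.asIdeal : ℝ) ^ m := by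
    intro w hw
    by_contra hcon
    have h1 : w ∈ hfin.toFinset := by
      rw [Set.Finite.mem_toFinset]
      exact hcon
    have h2 : Ideal.absNorm w.asIdeal ∣ 2 * M * B := by
      rw [hB]
      exact (Finset.dvd_prod_of_mem (fun w : HeightOneSpectrum (𝓞 L) => Ideal.absNorm w.asIdeal)
        h1).trans (dvd_mul_left _ _)
    obtain ⟨c, hc⟩ := h2
    have h3 : 𝔪 ≤ w.asIdeal := by
      rw [h𝔪, Ideal.span_singleton_le_iff_mem, hc, Nat.cast_mul]
      exact Ideal.mul_mem_right _ _ (Ideal.absNorm_mem _)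
    rw [Ideal.isCoprime_iff_sup_eq, sup_eq_left.2 h3] at hw
    exact w.isPrime.ne_top hw
  obtain ⟨k, hk⟩ := typ_dir τ t
  -- integers congruent to one
  have hcop : ∀ x : 𝓞 L, x - 1 ∈ 𝔪 → IsCoprime (Ideal.span {x}) 𝔪 := fun x hx =>
    Pool.Agent.Y772.G.coprime_of_sub_one hx
  have hval : ∀ x : 𝓞 L, x ≠ 0 → x - 1 ∈ 𝔪 → Pool.Agent.Y773.TPos L x →
      psi φ τ m h𝔪t (Ideal.span {x}) = om k (fun _ => 0) (x : L) := by
    intro x hx0 hx1 hpos
    have hx0' : (x : L) ≠ 0 := RingOfIntegers.coe_ne_zero_iff.2 hx0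
    have hray : Units.mk0 (x : L) hx0' ∈ Ray L M := by
      refine ⟨fun v hv => ?_, fun σ => hpos σ⟩
      rw [h𝔪, Ideal.mem_span_singleton] at hx1
      obtain ⟨c, hc⟩ := hx1
      have h1 : (x : L) - 1 = (M : L) * ((2 * (B : 𝓞 L) * c : 𝓞 L) : L) := by
        have h2 : ((x - 1 : 𝓞 L) : L) = (((2 * M * B : ℕ) : 𝓞 L) * c : 𝓞 L) := by rw [hc]
        push_cast at h2 ⊢
        rw [h2]
        ring
      rw [Units.val_mk0, h1, map_mul]
      exact mul_le_of_le_one_right' (v.valuation_le_one _)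
    have h1 := hal _ hray
    rw [dv_span (a := x) (Units.val_mk0 hx0')] at h1
    have h2 : th φ τ (dv (Ideal.span {x})) = τ (typU t (Units.mk0 (x : L) hx0') : QBar) := by
      unfold th
      rw [h1, toMul_ofMul]
    have h3 := psi_norm (φ := φ) (τ := τ) h𝔪t hwd _ (hcop x hx1)
    have h4 := psi_pos (φ := φ) (τ := τ) (m := m) h𝔪t (hcop x hx1)
    have hN := Real.rpow_pos_of_pos (nrm_pos (𝔞 := Ideal.span {x})
      (by rwa [Ne, Ideal.span_singleton_eq_bot])) ((m : ℝ) / 2)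
    have h5 : ‖th φ τ (dv (Ideal.span {x}))‖ =
        (Ideal.absNorm (Ideal.span {x}) : ℝ) ^ ((m : ℝ) / 2) := by
      rw [h4, norm_div, Complex.norm_real, Real.norm_of_nonneg hN.le, div_eq_one_iff_eq hN.ne'] at h3
      exact h3
    have h6 := hk (Units.mk0 (x : L) hx0')
    rw [← h2, Units.val_mk0] at h6
    rw [h4, ← h6, ← h5]
    rfl
  -- signs
  obtain ⟨e, he, hsig⟩ := sig (L := L) h𝔪0
    (fun x => psi φ τ m h𝔪t (Ideal.span {x}) / om k (fun _ => 0) (x : L)) (by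
      intro x y hx hy
      have hx' : (x : L) ≠ 0 := RingOfIntegers.coe_ne_zero_iff.2 hx
      have hy' : (y : L) ≠ 0 := RingOfIntegers.coe_ne_zero_iff.2 hy
      rw [← Ideal.span_singleton_mul_span_singleton, map_mul]
      have h1 : ((x * y : 𝓞 L) : L) = (x : L) * (y : L) := map_mul _ _ _
      rw [h1, Pool.Agent.T6.H23.HK.om_mul k _ hx' hy', mul_div_mul_comm]) (by
      rw [Ideal.span_singleton_one, ← Ideal.one_eq_top, map_one]
      have h1 : ((1 : 𝓞 L) : L) = 1 := map_one _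
      rw [h1, Pool.Agent.T6.H23.HK.om_one, div_one]) (by
      intro x hx hx1 hpos
      rw [hval x hx hx1 hpos]
      exact div_self (Pool.Agent.T6.H23.HK.om_ne k _ (RingOfIntegers.coe_ne_zero_iff.2 hx)))
  refine ⟨𝔪, (fun w => (e w : ℤ)) + k, (fun _ => 0) + (fun _ => 0), psi φ τ m h𝔪t,
    ⟨h𝔪0, fun 𝔞 ha => psi_ne h𝔪t ha, fun x hx hx1 => ?_⟩, ?_⟩
  · have hx' : (x : L) ≠ 0 := RingOfIntegers.coe_ne_zero_iff.2 hx
    have h1 := hsig x hx hx1
    rw [sig_om e he hx', div_eq_iff (Pool.Agent.T6.H23.HK.om_ne k _ hx')] at h1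
    rw [h1, Pool.Agent.T6.H23.HK.om_add _ _ _ _ hx']
  · filter_upwards [Pool.Agent.T6.H23.HK.coprime_cofinite h𝔪0] with w hw
    rw [psi_pos h𝔪t hw, dv_prime]
    rfl

end Pool.Agent.H720.ME.CXH
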